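import Pool.Agent.H854R3.CR.Stmts
import Pool.Agent.H854R3.NE.FinRed

set_option autoImplicit false

namespace Pool.Agent.H941R3.CR

open Pool.Agent.H854R3.NE Pool.Agent.H854R3.CR

/-- reduction of a matrix representation of a finitely generated ring to a finite field -/
theorem finite_red_ne {R : Type} [NonUnitalRing R] (hFG : FGen R) {K : Type} [Field K] {s : ℕ}
    (Θ : R →ₙ+* Matrix (Fin s) (Fin s) K) (β : R) (hβ : Θ β ≠ 0) :
    ∃ (L : Type) (_ : Field L) (_ : Finite L) (Θ' : R →ₙ+* Matrix (Fin s) (Fin s) L),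
      Θ' β ≠ 0 := by
  classical
  obtain ⟨G, hGf, hG⟩ := hFG
  let gens : Set K := ⋃ g ∈ G, Set.range (fun ij : Fin s × Fin s => Θ g ij.1 ij.2)
  have hgfin : gens.Finite := hGf.biUnion (fun g _ => Set.finite_range _)
  let S := Algebra.adjoin ℤ gens
  have hft : Algebra.FiniteType ℤ S := by
    rw [← Subalgebra.fg_iff_finiteType]
    exact Subalgebra.fg_def.2 ⟨gens, hgfin, rfl⟩
  have hent : ∀ a i j, Θ a i j ∈ S := by
    intro a
    have ha : a ∈ NonUnitalSubring.closure G := by rw [hG]; trivial
    induction ha using NonUnitalSubring.closure_induction with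
    | mem x hx =>
      intro i j
      exact Algebra.subset_adjoin (Set.mem_biUnion hx ⟨(i, j), rfl⟩)
    | zero => intro i j; rw [map_zero]; exact zero_mem _
    | add x y _ _ hx hy => intro i j; rw [map_add]; exact add_mem (hx i j) (hy i j)
    | neg x _ hx => intro i j; rw [map_neg]; exact neg_mem (hx i j)
    | mul x y _ _ hx hy =>
      intro i j
      rw [map_mul, Matrix.mul_apply]
      exact sum_mem fun k _ => mul_mem (hx i k) (hy k j)
  let Θ₀ : R →ₙ+* Matrix (Fin s) (Fin s) S :=
    { toFun := fun a => Matrix.of fun i j => ⟨Θ a i j, hent a i j⟩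
      map_mul' := by
        intro a b
        ext i j
        have h1 : Θ (a * b) i j = ∑ k, Θ a i k * Θ b k j := by rw [map_mul, Matrix.mul_apply]
        rw [Matrix.mul_apply]
        simp only [Matrix.of_apply, AddSubmonoidClass.coe_finsetSum, MulMemClass.coe_mul]
        exact h1
      map_zero' := by
        ext i j
        simp
      map_add' := by
        intro a b
        ext i j
        simp }
  obtain ⟨i, j, hij⟩ : ∃ i j, Θ₀ β i j ≠ 0 := by
    by_contra hcon
    push Not at hcon
    apply hβ
    ext i j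
    exact congrArg Subtype.val (hcon i j)
  obtain ⟨L, iL, hL, f, hf⟩ := exists_residue S _ hij
  let Θ' : R →ₙ+* Matrix (Fin s) (Fin s) L :=
    (f.mapMatrix.toNonUnitalRingHom).comp Θ₀
  refine ⟨L, iL, hL, Θ', fun h => hf ?_⟩
  exact congrFun (congrFun h i) j

theorem taskFin : TaskFin := by
  intro R _ hFG hsimple K _ s Θ β hβ
  obtain ⟨L, iL, hL, Θ', hΘ'⟩ := finite_red_ne hFG Θ β hβ
  have hfin : Finite (Matrix (Fin s) (Fin s) L) := by
    unfold Matrix
    infer_instance
  rcases hsimple (TwoSidedIdeal.ker Θ') with h | h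
  · refine Finite.of_injective Θ' ?_
    intro a b hab
    have h1 : a - b ∈ TwoSidedIdeal.ker Θ' := by
      rw [TwoSidedIdeal.mem_ker, map_sub, hab, sub_self]
    rw [h, TwoSidedIdeal.mem_bot] at h1
    exact sub_eq_zero.mp h1
  · exfalso
    apply hΘ'
    rw [← TwoSidedIdeal.mem_ker, h]
    trivial

end Pool.Agent.H941R3.CR
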